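import Pool.Agent.Lib.MP_60983f_an.Oblique

set_option autoImplicit false

namespace Pool.Agent.Results.MP_60983f_an.EveryFunction

open Pool.Agent.Lib.MP_60983f_an

/-- For every base `b ≥ 2`, every `0 < α < 1` and every Lipschitz `g`, all but countably many
upper extremal slices of the graph of `W_g` have at most one point, so some slice in a
non-vertical direction at a height in `[m_θ, M_θ]` has dimension different from `1 - α`. -/
theorem result (b : ℕ) (hb : 2 ≤ b) (α : ℝ) (hα₀ : 0 < α) (hα₁ : α < 1) (g : Lip) :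
    {θ ∈ Set.Ico (0 : ℝ) (2 * Real.pi) | ¬ (graph b α g ∩
      proj θ ⁻¹' {sSup (proj θ '' graph b α g)}).Subsingleton}.Countable ∧
    ∃ θ ∈ Set.Ico (0 : ℝ) (2 * Real.pi), Real.sin θ ≠ 0 ∧
      ∃ t ∈ Set.Icc (sInf (proj θ '' graph b α g)) (sSup (proj θ '' graph b α g)),
        dimH (graph b α g ∩ proj θ ⁻¹' {t}) ≠ ENNReal.ofReal (1 - α) := by
  obtain ⟨θ, h1, h2, t, ht, hd⟩ := exists_extremal b hb α hα₀ g
  refine ⟨countable_extremal b hb α hα₀ g, θ, h1, h2, t, ht, ?_⟩
  rw [hd]
  exact (ENNReal.ofReal_pos.2 (by linarith)).ne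

end Pool.Agent.Results.MP_60983f_an.EveryFunction
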