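import Pool.Agent.Lib.MP_60983f_an.Oblique

set_option autoImplicit false

namespace Pool.Agent.Results.MP_60983f_an.NotPrevalent

open Pool.Agent.Lib.MP_60983f_an

/-- For every base `b ≥ 2` and every `0 < α < 1`, the set of non-constant Lipschitz `g` for which
some non-empty slice (first part), or some non-extremal slice (second part), of the graph of `W_g`
in a non-vertical direction has Hausdorff dimension different from `1 - α` is not shy; any oblique
direction can be fixed in advance (third part). -/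
theorem result (b : ℕ) (hb : 2 ≤ b) (α : ℝ) (hα₀ : 0 < α) (hα₁ : α < 1) :
    (¬ IsShy {g : Lip | (∃ x y, g.toFun x ≠ g.toFun y) ∧
      ∃ θ ∈ Set.Ico (0 : ℝ) (2 * Real.pi), Real.sin θ ≠ 0 ∧
        ∃ t ∈ Set.Icc (sInf (proj θ '' graph b α g)) (sSup (proj θ '' graph b α g)),
          dimH (graph b α g ∩ proj θ ⁻¹' {t}) ≠ ENNReal.ofReal (1 - α)}) ∧
    (¬ IsShy {g : Lip | (∃ x y, g.toFun x ≠ g.toFun y) ∧
      ∃ θ ∈ Set.Ico (0 : ℝ) (2 * Real.pi), Real.sin θ ≠ 0 ∧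
        ∃ t ∈ Set.Ioo (sInf (proj θ '' graph b α g)) (sSup (proj θ '' graph b α g)),
          dimH (graph b α g ∩ proj θ ⁻¹' {t}) ≠ ENNReal.ofReal (1 - α)}) ∧
    ∀ θ : ℝ, Real.sin θ ≠ 0 → Real.cos θ ≠ 0 →
      ¬ IsShy {g : Lip | (∃ x y, g.toFun x ≠ g.toFun y) ∧
        ∃ t ∈ Set.Ioo (sInf (proj θ '' graph b α g)) (sSup (proj θ '' graph b α g)),
          dimH (graph b α g ∩ proj θ ⁻¹' {t}) = 0} := by
  obtain ⟨g₀, θ₀, h0, h1, hg₀⟩ := exists_ball_dir b hb α hα₀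
  refine ⟨?_, ?_, fun θ hs hc => ?_⟩
  rotate_right
  · obtain ⟨g₁, ε, hε, h⟩ := exists_ball_oblique b hb α hα₀ hs hc
    exact not_isShy_of_ball hε h
  all_goals
    refine not_isShy_of_ball (g₀ := g₀) (ε := 1 / 4) (by norm_num) fun g hg => ?_
    obtain ⟨t, ht, hd⟩ := (hg₀ g hg).2 (θ₀ / 2) ⟨by linarith, by linarith⟩
    refine ⟨(hg₀ g hg).1, θ₀ / 2, ⟨by linarith, by linarith [Real.pi_pos]⟩,
      (Real.sin_pos_of_pos_of_lt_pi (by linarith) (by linarith [Real.pi_pos])).ne', t,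
      ⟨by linarith [ht.1], by linarith [ht.2]⟩, ?_⟩
    rw [hd]
    exact (ENNReal.ofReal_pos.2 (by linarith)).ne

end Pool.Agent.Results.MP_60983f_an.NotPrevalent
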